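import Mathlib

/-!
# MP_dba3a1_an: the projection-monoid functor on AW*-algebras is not full

Let `A = M_2(ℂ)`. Entrywise complex conjugation is an automorphism of the Baer *-semigroup `P(A)`.
It is not the restriction of a `*`-homomorphism (complex linear!) of `A`: for the projections `p`,
`q`, `r` onto the lines spanned by `(1, 0)`, `(1, 1)`, `(1, i)` the element
`p q r p = ((1 + i) / 4) p` of `P(A)` is mapped to `((1 - i) / 4) p`.
-/

set_option autoImplicit false

open scoped Matrix.Norms.L2Operator Matrix ComplexConjugate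

namespace Pool.Agent.Results.MP_dba3a1_an.NotFull

/-- `e` is the annihilating projection `Rann(S)` of the subset `S` of the multiplicative
`*`-semigroup `M`: `e` is a projection in `M`, and the right annihilator of `S` in `M` is `e M`. -/
def IsRann {R : Type*} [Mul R] [Zero R] [Star R] (M S : Set R) (e : R) : Prop :=
  e ∈ M ∧ star e = e ∧ e * e = e ∧ ∀ y ∈ M, (∀ x ∈ S, x * y = 0) ↔ ∃ z ∈ M, y = e * z

/-- `A` is an AW*-algebra: the right annihilator of every subset is `e A` for a projection `e`. -/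
def IsAWStar (A : Type*) [CStarAlgebra A] : Prop :=
  ∀ S : Set A, ∃ e : A, IsRann Set.univ S e

/-- `P(A)`: the multiplicative submonoid of `A` generated by the projections of `A`. -/
def P (A : Type*) [CStarAlgebra A] : Submonoid A :=
  Submonoid.closure {p : A | star p = p ∧ p * p = p}

/-- `φ : P(A) → P(B)` is a morphism of Baer *-semigroups: it preserves products, the involution and
annihilating projections. (The maps are written as maps between the underlying algebras of which
only the values on `P(A)` are used.) -/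
structure IsBaerMorphism {A B : Type*} [CStarAlgebra A] [CStarAlgebra B] (φ : A → B) : Prop where
  maps_to : ∀ x ∈ P A, φ x ∈ P B
  map_mul : ∀ x ∈ P A, ∀ y ∈ P A, φ (x * y) = φ x * φ y
  map_star : ∀ x ∈ P A, φ (star x) = star (φ x)
  map_rann : ∀ S ⊆ (P A : Set A), ∀ e : A, IsRann (P A : Set A) S e →
    IsRann (P B : Set B) (φ '' S) (φ e)

/-- A morphism of AW*-algebras: a `*`-homomorphism `f` which sends `Rann(S)` to `Rann(f(S))`
for every subset `S`. -/
def IsAWMorphism {A B : Type*} [CStarAlgebra A] [CStarAlgebra B] (f : A →⋆ₙₐ[ℂ] B) : Prop :=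
  ∀ (S : Set A) (e : A), IsRann Set.univ S e → IsRann Set.univ (f '' S) (f e)

/-- For every AW*-algebra `A`, the `*`-semigroup `P(A)` is a Baer *-semigroup (stated here to show
that `IsRann (P A)` is the intended notion). -/
theorem baer_P {A : Type*} [CStarAlgebra A] (hA : IsAWStar A) (S : Set A) :
    ∃ e : A, IsRann (P A : Set A) S e := by
  obtain ⟨e, -, h1, h2, h3⟩ := hA S
  have he : e ∈ P A := Submonoid.subset_closure ⟨h1, h2⟩
  refine ⟨e, he, h1, h2, fun y hy => ?_⟩
  rw [h3 y (Set.mem_univ y)]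
  constructor
  · rintro ⟨z, -, rfl⟩
    exact ⟨e * z, hy, by rw [← mul_assoc, h2]⟩
  · rintro ⟨z, -, rfl⟩
    exact ⟨z, Set.mem_univ z, rfl⟩

/-- the algebra of 2×2 matrices -/
abbrev M2 : Type := Matrix (Fin 2) (Fin 2) ℂ

/-- entrywise complex conjugation -/
noncomputable def cj (x : M2) : M2 := x.map (starRingEnd ℂ)

lemma cj_cj (x : M2) : cj (cj x) = x := by
  ext i j
  simp [cj]

lemma cj_mul (x y : M2) : cj (x * y) = cj x * cj y := Matrix.map_mul

lemma cj_star (x : M2) : cj (star x) = star (cj x) := by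
  ext i j
  simp [cj, Matrix.star_apply]

lemma cj_zero : cj 0 = 0 := by
  ext i j
  simp [cj]

lemma cj_one : cj 1 = 1 := by
  ext i j
  fin_cases i <;> fin_cases j <;> simp [cj]

lemma cj_mem {x : M2} (hx : x ∈ P M2) : cj x ∈ P M2 := by
  unfold P at hx
  induction hx using Submonoid.closure_induction with
  | mem x hx =>
    refine Submonoid.subset_closure ⟨?_, ?_⟩
    · rw [← cj_star, hx.1]
    · rw [← cj_mul, hx.2]
  | one => rw [cj_one]; exact Submonoid.one_mem _
  | mul x y _ _ hx hy => rw [cj_mul]; exact Submonoid.mul_mem _ hx hy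

lemma cj_eq_zero {x : M2} : cj x = 0 ↔ x = 0 := by
  constructor
  · intro h
    rw [← cj_cj x, h, cj_zero]
  · rintro rfl
    exact cj_zero

lemma cj_baer : IsBaerMorphism (A := M2) (B := M2) cj := by
  refine ⟨fun x hx => cj_mem hx, fun x _ y _ => cj_mul x y, fun x _ => cj_star x, ?_⟩
  rintro S - e ⟨he, h1, h2, h3⟩
  refine ⟨cj_mem he, by rw [← cj_star, h1], by rw [← cj_mul, h2], fun y hy => ?_⟩
  have h4 := h3 (cj y) (cj_mem hy)
  constructor
  · intro h
    obtain ⟨z, hz, hz'⟩ := h4.1 (by
      intro x hx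
      rw [← cj_eq_zero, cj_mul, cj_cj]
      exact h _ ⟨x, hx, rfl⟩)
    exact ⟨cj z, cj_mem hz, by rw [← cj_mul, ← hz', cj_cj]⟩
  · rintro ⟨z, hz, rfl⟩ _ ⟨x, hx, rfl⟩
    have h5 := h4.2 ⟨cj z, cj_mem hz, by rw [cj_mul, cj_cj]⟩ x hx
    rw [← cj_eq_zero, cj_mul, cj_cj] at h5
    exact h5

/-- `M_2(ℂ)` is an AW*-algebra. -/
lemma m2_awstar : IsAWStar M2 := by
  intro S
  let E := EuclideanSpace ℂ (Fin 2)
  let T : M2 ≃⋆ₐ[ℂ] (E →L[ℂ] E) := Matrix.toEuclideanCLM
  have hmul : ∀ x y, T (x * y) = T x * T y := fun x y => map_mul T x y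
  have hstar : ∀ x, T (star x) = star (T x) := fun x => map_star T x
  have hzero : T 0 = 0 := map_zero T
  have hinj : ∀ x y, T x = T y → x = y := fun x y h => T.injective h
  let V : Submodule ℂ E := ⨅ x ∈ S, LinearMap.ker (T x : E →ₗ[ℂ] E)
  have hV : ∀ v, v ∈ V ↔ ∀ x ∈ S, T x v = 0 := by
    intro v
    simp only [V, Submodule.mem_iInf, LinearMap.mem_ker]
    rfl
  have hp1 : star V.starProjection = V.starProjection :=
    (isStarProjection_starProjection (U := V)).isSelfAdjoint
  have hp2 : V.starProjection * V.starProjection = V.starProjection :=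
    (isStarProjection_starProjection (U := V)).isIdempotentElem
  obtain ⟨e, he⟩ : ∃ e, T e = V.starProjection := T.surjective _
  refine ⟨e, Set.mem_univ _, hinj _ _ (by rw [hstar, he, hp1]), hinj _ _ (by rw [hmul, he, hp2]),
    fun y _ => ?_⟩
  constructor
  · intro h
    refine ⟨y, Set.mem_univ _, hinj _ _ ?_⟩
    rw [hmul, he]
    ext1 v
    change T y v = V.starProjection (T y v)
    symm
    apply Submodule.starProjection_eq_self_iff.2
    rw [hV]
    intro x hx
    have h1 : T x * T y = 0 := by rw [← hmul, h x hx, hzero]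
    exact congrArg (fun R : E →L[ℂ] E => R v) h1
  · rintro ⟨z, -, rfl⟩ x hx
    apply hinj
    rw [hmul, hmul, he, hzero]
    ext1 v
    exact (hV _).1 (Submodule.starProjection_apply_mem V (T z v)) x hx

/-- The functor `P` from AW*-algebras to Baer *-semigroups is not full: `M_2(ℂ)` is an AW*-algebra,
and entrywise complex conjugation restricts to a morphism (in fact an involutive automorphism) of
the Baer *-semigroup `P(M_2(ℂ))`, which is not the restriction of a morphism of AW*-algebras from
`M_2(ℂ)` to itself, and not even of a `*`-homomorphism. -/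
theorem result :
    IsAWStar M2 ∧
    ∃ φ : M2 → M2, IsBaerMorphism φ ∧ (∀ x ∈ P M2, φ (φ x) = x) ∧
      (¬ ∃ f : M2 →⋆ₙₐ[ℂ] M2, IsAWMorphism f ∧ ∀ x ∈ P M2, f x = φ x) ∧
      ¬ ∃ f : M2 →⋆ₙₐ[ℂ] M2, ∀ x ∈ P M2, f x = φ x := by
  have key : ¬ ∃ f : M2 →⋆ₙₐ[ℂ] M2, ∀ x ∈ P M2, f x = cj x := by
    rintro ⟨f, hf⟩
    let p : M2 := !![1, 0; 0, 0]
    let q : M2 := !![1 / 2, 1 / 2; 1 / 2, 1 / 2]
    let r : M2 := !![1 / 2, -Complex.I / 2; Complex.I / 2, 1 / 2]
    have hp : p ∈ P M2 := by
      refine Submonoid.subset_closure ⟨?_, ?_⟩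
      · ext i j
        fin_cases i <;> fin_cases j <;> simp [p, Matrix.star_apply]
      · ext i j
        fin_cases i <;> fin_cases j <;> simp [p, Matrix.mul_apply, Fin.sum_univ_two]
    have hq : q ∈ P M2 := by
      refine Submonoid.subset_closure ⟨?_, ?_⟩
      · ext i j
        fin_cases i <;> fin_cases j <;> simp [q, Matrix.star_apply]
      · ext i j
        fin_cases i <;> fin_cases j <;>
          simp [q, Matrix.mul_apply, Fin.sum_univ_two] <;> norm_num
    have hr : r ∈ P M2 := by
      refine Submonoid.subset_closure ⟨?_, ?_⟩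
      · ext i j
        fin_cases i <;> fin_cases j <;> simp [r, Matrix.star_apply]
      · ext i j
        fin_cases i <;> fin_cases j <;>
          simp [r, Matrix.mul_apply, Fin.sum_univ_two] <;> ring_nf <;>
          simp [Complex.I_sq] <;> norm_num
    have hprod : p * q * r * p = ((1 + Complex.I) / 4) • p := by
      ext i j
      fin_cases i <;> fin_cases j <;>
        simp [p, q, r, Matrix.mul_apply, Fin.sum_univ_two] <;> ring
    have h1 := hf _ (Submonoid.mul_mem _ (Submonoid.mul_mem _ (Submonoid.mul_mem _ hp hq) hr) hp)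
    rw [hprod, map_smul, hf p hp] at h1
    have h2 := congrFun (congrFun h1 0) 0
    have h4 : (starRingEnd ℂ) 4 = 4 := map_ofNat _ 4
    simp [cj, p, h4] at h2
    have h3 := congrArg Complex.im h2
    norm_num at h3
  refine ⟨m2_awstar, cj, cj_baer, fun x _ => cj_cj x, ?_, key⟩
  rintro ⟨f, -, hf⟩
  exact key ⟨f, hf⟩

end Pool.Agent.Results.MP_dba3a1_an.NotFull
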